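import Pool.Agent.MP_09973c_nt.H74.ZB

/-!
Equidistribution for large orbits of a small chain with a tail.
-/

set_option autoImplicit false

namespace Pool.Agent.MP_09973c_nt.H74

open Polynomial Finset Classical Pool.Agent.MP_09973c_nt.H31 Pool.Agent.MP_09973c_nt.H58

/-- Greedy choice of independent evaluation vectors with distinct keys. -/
theorem greedy {F κ Γ Y : Type} [Field F] [Fintype κ] [DecidableEq κ] (G : Γ → Prop)
    (vec : Γ → κ → F) (key : Γ → Y)
    (h : ∀ c : κ → F, c ≠ 0 → ∀ U : Finset Y, U.card < Fintype.card κ →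
      ∃ g, G g ∧ ∑ k, c k * vec g k ≠ 0 ∧ key g ∉ U) :
    ∃ g : κ → Γ, (∀ l, G (g l)) ∧ (Matrix.of fun k l => vec (g l) k).det ≠ 0 ∧
      Function.Injective fun l => key (g l) := by
  have key1 : ∀ n ≤ Fintype.card κ, ∃ g : Fin n → Γ, (∀ l, G (g l)) ∧
      LinearIndependent F (fun l => vec (g l)) ∧ Function.Injective fun l => key (g l) := by
    intro n
    induction n with
    | zero =>
      exact fun _ => ⟨Fin.elim0, fun l => l.elim0, linearIndependent_empty_type, fun l => l.elim0⟩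
    | succ n ih =>
      intro hn
      obtain ⟨g, hg, hli, hinj⟩ := ih (by omega)
      have hlt : Submodule.span F (Set.range fun l => vec (g l)) < ⊤ := by
        refine lt_top_iff_ne_top.2 fun h0 => ?_
        have h1 := finrank_range_le_card (R := F) fun l => vec (g l)
        rw [Set.finrank, h0, finrank_top, Module.finrank_fintype_fun_eq_card,
          Fintype.card_fin] at h1
        omega
      obtain ⟨φ, hφ, hker⟩ := Submodule.exists_le_ker_of_lt_top _ hlt
      have hφe : ∀ x, φ x = ∑ k, φ (Pi.single k 1) * x k := fun x => by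
        conv_lhs => rw [pi_eq_sum_univ' x, map_sum]
        exact sum_congr rfl fun k _ => by rw [map_smul, smul_eq_mul, mul_comm]
      obtain ⟨g', hg', hne, hkey⟩ := h (fun k => φ (Pi.single k 1))
        (fun h0 => hφ (LinearMap.ext fun x => by
          rw [hφe]
          exact sum_eq_zero fun k _ => by rw [show φ (Pi.single k 1) = 0 from congrFun h0 k]; simp))
        (univ.image fun l => key (g l)) (card_image_le.trans_lt (by simpa using hn))
      refine ⟨Fin.cons g' g, Fin.cases hg' hg, ?_, ?_⟩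
      · rw [show (fun l => vec ((Fin.cons g' g : Fin (n + 1) → Γ) l)) =
          Fin.cons (vec g') fun l => vec (g l) from funext (Fin.cases rfl fun _ => rfl),
          linearIndependent_finCons]
        exact ⟨hli, fun hm => hne (by rw [← hφe]; exact hker hm)⟩
      · rw [show (fun l => key ((Fin.cons g' g : Fin (n + 1) → Γ) l)) =
          Fin.cons (key g') fun l => key (g l) from funext (Fin.cases rfl fun _ => rfl),
          Fin.cons_injective_iff]
        exact ⟨fun ⟨l, hl⟩ => hkey (mem_image.2 ⟨l, mem_univ _, hl⟩), hinj⟩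
  obtain ⟨g, hg, hli, hinj⟩ := key1 _ le_rfl
  let e := Fintype.equivFin κ
  refine ⟨fun l => g (e l), fun l => hg _, ?_, hinj.comp e.injective⟩
  have : LinearIndependent F (Matrix.of fun k l => vec (g (e l)) k).col := hli.comp e e.injective
  exact ((Matrix.isUnit_iff_isUnit_det _).1 (Matrix.linearIndependent_cols_iff_isUnit.1 this)).ne_zero

theorem EQ_reindex {τ κ κ' : Type} [Fintype κ] [Fintype κ'] (e : κ' ≃ κ) {N' : ℕ}
    {a b : τ → κ → ℝ} (h : EQ N' a b) : EQ N' (fun f l => a f (e l)) fun f l => b f (e l) := by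
  intro w hw
  obtain ⟨S₁, h1, h⟩ := h (fun l => w (e.symm l)) fun l => hw _
  refine ⟨S₁.map e.symm.toEmbedding, by simpa using h1, fun f => ?_⟩
  obtain ⟨S, h2, h⟩ := h f
  refine ⟨S.map e.symm.toEmbedding, by simpa using h2, fun f' => ?_⟩
  obtain ⟨S₂, h3, h⟩ := h f'
  refine ⟨S₂.map e.symm.toEmbedding, by simpa using h3, ?_⟩
  simpa only [prod_map, Equiv.coe_toEmbedding, Equiv.apply_symm_apply, Fintype.card_congr e]
    using h

theorem Grid_reindex {p q j m : ℕ} {a ξ : ℂ} {C₀ : ℝ} {κ κ' : Type} [Fintype κ] [Fintype κ']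
    (e : κ' ≃ κ) {R : κ → (ℕ → ℂ) × (ℕ → ℂ)} (h : Grid p q a ξ C₀ j m R) :
    Grid p q a ξ C₀ j m fun l => R (e l) where
  ok := fun x => h.ok _
  frac := fun m₁ hm j₁ hj good hgood => by
    have := h.frac m₁ hm j₁ hj (good.map e.toEmbedding) fun x => by
      obtain ⟨u, t, h1, h2, h3, h4, h5⟩ := hgood (e.symm x)
      refine ⟨u, t, h1, by simpa using h2, h3, h4, fun y hy hy' => ?_⟩
      exact mem_map.2 ⟨e.symm y, h5 _ (by simpa using hy) (by simpa using hy'), by simp⟩
    rwa [card_map, ← Fintype.card_congr e] at this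
  rot := fun hj ζ hζ => by
    obtain ⟨π, hπ⟩ := h.rot hj ζ hζ
    exact ⟨(e.trans π).trans e.symm, fun x => by simpa using hπ (e x)⟩

theorem mul_poly {P κ ι : Type} [Fintype κ] [DecidableEq κ] (S : Sys P κ ι) (z : P → ℂ) {n : ℕ}
    (h : ∀ i ≤ n, S.Mul fun x => z x ^ i) (f : ℂ[X]) (hf : f.natDegree ≤ n) :
    S.Mul fun x => f.eval (z x) := by
  intro l
  choose! c hc using fun i hi => h i hi l
  refine ⟨fun k => ∑ i ∈ range (n + 1), f.coeff i * c i k, fun x hx => ?_⟩
  simp only [sum_mul]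
  rw [sum_comm, eval_eq_sum_range' (Nat.lt_succ_of_le hf), sum_mul]
  refine sum_congr rfl fun i hi => ?_
  have := hc i (Nat.lt_succ_iff.1 (mem_range.1 hi)) x hx
  simp only at this
  rw [mul_assoc, this, mul_sum]
  exact sum_congr rfl fun k _ => by ring

theorem map_mono {A B : Type} [CommRing A] [CommRing B] (φ : A →+* B) {p q j m T : ℕ}
    (k : PK p q j m T) (u t : ℕ → A) :
    φ (mono k u t) = mono k (fun i => φ (u i)) fun i => φ (t i) := by
  simp [mono, bas, pv, apply_ite φ]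

theorem mono_Sz {p q j m T D : ℕ} (hpq : p < q) {H : ℝ} (hH : 1 ≤ H) {u t : ℕ → Qb}
    (h : ∀ i ≤ m + j, Sz (pv j u t i) D H) (k : PK p q j m T) :
    Sz (mono k u t) (D ^ (T + (m + j) * q)) (H ^ (T + (m + j) * q)) := by
  have h1 := ((h _ le_rfl).pow k.1).mul
    (Sz.prod univ fun (i : Fin (m + j)) _ => (h i i.2.le).pow (k.2 i))
  rw [pv_top, prod_pow_eq_pow_sum, prod_pow_eq_pow_sum, ← pow_add, ← pow_add] at h1
  have h2 : (k.1 : ℕ) + ∑ i, (k.2 i : ℕ) ≤ T + (m + j) * q := by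
    refine add_le_add k.1.2.le ?_
    simpa using sum_le_card_nsmul univ (fun i => (k.2 i : ℕ)) q fun i _ =>
      (k.2 i).2.le.trans (by rw [tr_eq]; split_ifs <;> omega)
  exact h1.mono (pow_dvd_pow _ h2) (pow_le_pow_right₀ hH h2)

theorem card_PK (p q j m T : ℕ) :
    Fintype.card (PK p q j m T) = T * lam (tr p q j) (m + j) := by
  rw [Fintype.card_prod, Fintype.card_fin, card_Idx]

/-- The embedding attached to an automorphism. -/
noncomputable def emb (g : Gal) : Qb →+* ℂ := (algebraMap Qb ℂ).comp (g : Qb →+* Qb)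

theorem emb_apply (g : Gal) (x : Qb) : emb g x = ((g x : Qb) : ℂ) := rfl

theorem param {q X Y₀ C j m₀ m₁ w K : ℕ} (hq : 2 ≤ q) (hw : 0 < w) (hK : 0 < K)
    (hX : X = 2 ^ (j + m₁ + 1) * w * K)
    (h : 2 ^ m₀ ≤ (2 ^ (j + 0 + 1) * w * K * (Y₀ * q ^ j)) ^ C) :
    q ^ (15 * (m₀ + m₁ + (Nat.log 2 K + 1))) ≤ X ^ (((1 + (Y₀ + q)) * C + 1) * (15 * q)) := by
  have h1 : 2 ^ (j + 1) ≤ X := by
    rw [hX, mul_assoc]
    exact (Nat.pow_le_pow_right two_pos (by omega)).trans (Nat.le_mul_of_pos_right _ (by positivity))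
  have h2 : Y₀ * q ^ j ≤ X ^ (Y₀ + q) := by
    refine le_trans ?_ (Nat.pow_le_pow_left h1 _)
    rw [pow_add, ← pow_mul, ← pow_mul]
    refine Nat.mul_le_mul (Nat.lt_two_pow_self.le.trans (Nat.pow_le_pow_right two_pos ?_)) ?_
    · nlinarith
    · refine (Nat.pow_le_pow_left Nat.lt_two_pow_self.le _).trans ?_
      rw [← pow_mul]
      exact Nat.pow_le_pow_right two_pos (by nlinarith)
  have h3 : 2 ^ (j + 0 + 1) * w * K ≤ X := by
    rw [hX]
    exact Nat.mul_le_mul_right _ (Nat.mul_le_mul_right _ (Nat.pow_le_pow_right two_pos (by omega)))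
  have h4 : 2 ^ m₀ ≤ X ^ ((1 + (Y₀ + q)) * C) := by
    rw [pow_mul, pow_add, pow_one]
    exact h.trans (Nat.pow_le_pow_left (Nat.mul_le_mul h3 h2) _)
  have h5 : 2 ^ (m₁ + (Nat.log 2 K + 1)) ≤ X := by
    rw [hX, show m₁ + (Nat.log 2 K + 1) = (m₁ + 1) + Nat.log 2 K by ring, pow_add]
    exact Nat.mul_le_mul ((Nat.pow_le_pow_right two_pos (by omega)).trans
      (Nat.le_mul_of_pos_right _ hw)) (Nat.pow_log_le_self 2 hK.ne')
  have h6 : 2 ^ (m₀ + m₁ + (Nat.log 2 K + 1)) ≤ X ^ ((1 + (Y₀ + q)) * C + 1) := by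
    rw [add_assoc m₀, pow_add, pow_succ]
    exact Nat.mul_le_mul h4 h5
  refine (Nat.pow_le_pow_left Nat.lt_two_pow_self.le _).trans ?_
  rw [pow_mul X]
  refine le_trans (le_of_eq ?_) (Nat.pow_le_pow_left h6 _)
  rw [← pow_mul, ← pow_mul]
  congr 1
  ring

theorem count {q m j T N : ℕ} (hq : 2 ≤ q) (hm : 1 ≤ m) (hj : j ≤ m) (hT : T ≤ q ^ m)
    (hN : N ≤ T * q ^ (m + j)) : (T + 1) * q ^ (4 * (m + j + 1)) + N ≤ q ^ (15 * m) := by
  have h0 : 0 < q ^ m := by positivity
  have h1 : T + 1 ≤ q ^ (m + 1) := by rw [pow_succ]; nlinarith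
  have h2 : (T + 1) * q ^ (4 * (m + j + 1)) ≤ q ^ (9 * m + 5) := by
    refine (Nat.mul_le_mul_right _ h1).trans ?_
    rw [← pow_add]
    exact Nat.pow_le_pow_right (by omega) (by omega)
  have h3 : N ≤ q ^ (9 * m + 5) := by
    refine hN.trans ((Nat.mul_le_mul_right _ hT).trans ?_)
    rw [← pow_add]
    exact Nat.pow_le_pow_right (by omega) (by omega)
  have h4 : q ^ (9 * m + 5 + 1) ≤ q ^ (15 * m) := Nat.pow_le_pow_right (by omega) (by omega)
  rw [pow_succ] at h4
  nlinarith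

theorem dp (hSP : SPStmt) (hZB : ZBStmt) (hD : DetAStmt) : DPStmt := by
  intro p q a G C₀ d hp hpq h ha hG hGK hC hd hda
  obtain ⟨C, hC1⟩ := hSP p q C₀ hp hpq h
  obtain ⟨-, -, Ca, hCa, -, hCa'⟩ := exists_Sz a
  have haSz : Sz a d Ca := ⟨hda, hCa'⟩
  have hC0 : 1 ≤ C₀ := by linarith [norm_nonneg a]
  have hL1 : 0 ≤ Real.log C₀ := Real.log_nonneg hC0
  have hL2 : 0 ≤ Real.log (1 + Ca) := log_one_add_nonneg (by linarith)
  set L := Real.log C₀ + Real.log (1 + Ca) with hL
  have hld : 0 ≤ Real.log d := Real.log_natCast_nonneg d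
  set c₁ : ℝ := (p + 1) * Real.log d + L with hc₁
  have hc₁0 : 0 ≤ c₁ := by positivity
  obtain ⟨Y₀, hY₀⟩ := exists_nat_ge (6 + G.index + G.index * (2 * q * c₁))
  have hY6 : (6 : ℝ) ≤ Y₀ := le_trans (by
    have : (0 : ℝ) ≤ G.index + G.index * (2 * q * c₁) := by positivity
    linarith) hY₀
  have hY0 : 0 < Y₀ := by exact_mod_cast (show (0 : ℝ) < Y₀ by linarith)
  refine ⟨((1 + (Y₀ + q)) * C + 1) * (15 * q), fun j w K m₁ hw hK => ?_⟩
  obtain ⟨m₀, hj, hm₀, hSP2⟩ := hC1 j 0 w K (Y₀ * q ^ j) hw hK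
    (Nat.mul_pos hY0 (pow_pos (by omega) _))
  have hpar := param (m₁ := m₁) (show 2 ≤ q by omega) hw hK rfl hm₀
  set m := m₀ + m₁ + (Nat.log 2 K + 1) with hm
  obtain ⟨T, T', J, hT0, hT, hSP3⟩ := hSP2 m (by omega)
  refine ⟨m, by omega, fun ξ u t hξ hξ1 hu hSz ht0 ht horb => ?_⟩
  have hξ' : (ξ : ℂ) ^ p = 1 := by exact_mod_cast congrArg (fun x : Qb => (x : ℂ)) hξ
  have hξ1' : (ξ : ℂ) ≠ 1 := fun h0 => hξ1 (by exact_mod_cast h0)
  have ha' : (a : ℂ) ≠ 0 := fun h0 => ha (by exact_mod_cast h0)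
  obtain ⟨S, hOk, he, hGrid, hKN, hY, hMul, -⟩ := hSP3 a ξ j ∅ hC hξ' le_rfl (by simp)
  set N := Fintype.card (PK p q j m T) with hN
  have hr : ∀ k, tr p q j k ≤ q := fun k => by rw [tr_eq]; split_ifs <;> omega
  have hr2 : ∀ k, 2 ≤ tr p q j k := fun k => by rw [tr_eq]; split_ifs <;> omega
  have hN1 : N ≤ T * q ^ (m + j) := by
    rw [hN, card_PK]
    exact Nat.mul_le_mul_left _ (by
      simpa [lam] using prod_le_pow_card (range (m + j)) _ q fun i _ => hr i)
  have hN2 : K ≤ N := by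
    rw [hN, card_PK]
    have h1 : 2 ^ (m + j) ≤ lam (tr p q j) (m + j) := by
      simpa [lam] using pow_card_le_prod (range (m + j)) _ 2 fun i _ => hr2 i
    exact ((Nat.lt_pow_succ_log_self one_lt_two K).le.trans
      ((Nat.pow_le_pow_right two_pos (by omega)).trans h1)).trans (Nat.le_mul_of_pos_left _ hT0)
  have hcount := count (show 2 ≤ q by omega) (show 1 ≤ m by omega) (show j ≤ m by omega) hT hN1
  let pt : Gal → (ℕ → ℂ) × (ℕ → ℂ) := fun g => (fun i => emb g (u i), fun i => emb g (t i))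
  have hpa : ∀ g ∈ G, emb g a = a := fun g hg => by rw [emb_apply, GK_left (hGK hg)]
  have hpu : ∀ g ∈ G, Bwd p q (a : ℂ) m (pt g).1 := fun g hg => hpa g hg ▸ hu.map (emb g)
  have hpt : ∀ g ∈ G, Bwd p q (a : ℂ) j (pt g).2 := fun g hg => hpa g hg ▸ ht.map (emb g)
  have hp0 : ∀ g ∈ G, (pt g).2 0 = ξ * (pt g).1 0 := fun g hg => by
    simp only [pt]
    rw [ht0, map_mul, emb_apply g ξ, GK_p (hGK hg) hξ]
  obtain ⟨g₀, hg₀, hdet, hinj⟩ := greedy (F := Qb) (fun g => g ∈ G)
    (fun g (k : PK p q j m T) => g (mono k u t)) (fun g => emb g (u 0)) (fun c hc U hU => by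
      obtain ⟨Z, hZ, hZ'⟩ := hZB p q a hp hpq h ha' j m T ξ hξ' hξ1' (fun k => (c k : ℂ))
        (fun h0 => hc (funext fun k => Subtype.val_injective (congrFun h0 k)))
      have hcard : (Z ∪ U).card < ((orb_finite G (u 0)).toFinset.image
          fun x : Qb => (x : ℂ)).card := by
        rw [card_image_of_injective _ Subtype.val_injective,
          ← Set.ncard_eq_toFinset_card _ (orb_finite G (u 0))]
        have := card_union_le Z U
        omega
      obtain ⟨_, h1, h2⟩ := exists_mem_notMem_of_card_lt_card hcard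
      obtain ⟨y, hy, rfl⟩ := mem_image.1 h1
      obtain ⟨g, hg, rfl⟩ := (Set.Finite.mem_toFinset _).1 hy
      rw [mem_union, not_or] at h2
      refine ⟨g, hg, fun h0 => h2.1 (hZ' _ _ (hpu g hg) (hp0 g hg) (hpt g hg) ?_), h2.2⟩
      have := congrArg (algebraMap Qb ℂ) h0
      rw [map_sum, map_zero] at this
      rw [← this]
      exact sum_congr rfl fun k _ => by rw [map_mul, ← map_mono (emb g)]; rfl)
  have hq1 : (1 : ℝ) ≤ (q : ℝ) ^ j := one_le_pow₀ (by exact_mod_cast (show 1 ≤ q by omega))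
  have hp1 : (1 : ℝ) ≤ p := by exact_mod_cast (show 1 ≤ p by omega)
  have hθ : ∀ i ≤ j, ((q : ℝ) / p) ^ i ≤ (q : ℝ) ^ j := fun i hi =>
    (pow_le_pow_left₀ (by positivity) (div_le_self (by positivity) hp1) i).trans
      (pow_le_pow_right₀ (by exact_mod_cast (show 1 ≤ q by omega)) hi)
  have hH : 1 ≤ Real.exp ((q : ℝ) ^ j * L) := Real.one_le_exp (by positivity)
  have hv : ∀ i ≤ m + j, Sz (pv j u t i) (d ^ dn p q j) (Real.exp ((q : ℝ) ^ j * L)) := by
    intro i hi
    unfold pv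
    split_ifs with h1
    · have h2 : Sz (t 0) d C₀ := by
        simpa [ht0] using (Sz.root (by omega) hξ).mul (hSz 0 (Nat.zero_le _))
      refine (bwd_Sz (by omega) hpq haSz ht hC0 h2 (j - i) (by omega)).mono
        (pow_dvd_pow _ (dn_mono (by omega) hpq (by omega))) (Real.exp_le_exp.2 ?_)
      exact mul_le_mul_of_nonneg_right (hθ _ (by omega)) (by positivity)
    · refine (hSz _ (by omega)).mono (dvd_pow_self _ (dn_pos p q j).ne') ?_
      rw [← Real.exp_log (show 0 < C₀ by linarith), Real.exp_le_exp]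
      exact (le_add_of_nonneg_right hL2).trans (le_mul_of_one_le_left (by positivity) hq1)
  have hB := Real.log_nonneg S.hB
  have hNpos : (1 : ℝ) ≤ N := by exact_mod_cast (show 1 ≤ N by omega)
  have hlN := Real.log_nonneg hNpos
  set A : ℝ := Real.log S.B + Real.log N + T + m + 1 with hA
  have hTm : (0 : ℝ) ≤ T ∧ (0 : ℝ) ≤ m := ⟨by positivity, by positivity⟩
  have hA1 : 1 ≤ A := by linarith [hTm.1, hTm.2]
  have hYA : (Y₀ : ℝ) * ((q : ℝ) ^ j * A) ≤ J := by
    rw [← mul_assoc]; exact_mod_cast hY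
  have hqA : A ≤ (q : ℝ) ^ j * A := le_mul_of_one_le_left (by linarith) hq1
  obtain ⟨g, hg, hEQ⟩ := hD _ _ _ {f : ℂ[X] // f.natDegree ≤ w} S G pt (fun k => mono k u t) _ _
    g₀ (fun f x => f.1.eval (x.2 j)) J hG
    (fun g hg => ⟨(hOk _).2 ⟨hpu g hg, fun i hi => (hSz i hi).2 g, hp0 g hg, hpt g hg⟩,
      fun k => by rw [he, ← emb_apply, map_mono]⟩)
    (by positivity) (one_le_pow₀ hH) (mono_Sz hpq hH hv) hg₀ hdet
    (by
      have : (0 : ℝ) < J := (mul_pos (by linarith) (by linarith)).trans_le hYA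
      exact_mod_cast this)
    (fun f => by
      simp only [← eval_pow]
      exact mul_poly S _ hMul _ (natDegree_pow_le.trans
        ((Nat.mul_le_mul_left _ f.2).trans_eq (mul_comm _ _))))
    (by
      rw [← hN, Real.log_mul two_ne_zero (by linarith), Nat.cast_pow, Nat.cast_pow, Real.log_pow,
        Real.log_pow, Real.log_pow, Real.log_exp]
      have h1 : Real.log 2 ≤ 1 := by linarith [Real.log_two_lt_d9]
      have h2 : ((T + (m + j) * q : ℕ) : ℝ) ≤ 2 * q * A := by
        have h3 : T + (m + j) * q ≤ 2 * q * (T + m) := by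
          have h5 := Nat.mul_le_mul_right q (show m + j ≤ 2 * m by omega)
          have h6 := Nat.le_mul_of_pos_left T (show 0 < 2 * q by omega)
          calc _ ≤ 2 * q * T + 2 * m * q := add_le_add h6 h5
            _ = _ := by ring
        have h4 : ((T + (m + j) * q : ℕ) : ℝ) ≤ 2 * q * (T + m) := by exact_mod_cast h3
        exact h4.trans (mul_le_mul_of_nonneg_left (by linarith) (by positivity))
      have h3 : (dn p q j : ℝ) * Real.log d + (q : ℝ) ^ j * L ≤ (q : ℝ) ^ j * c₁ := by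
        have h4 := dn_le (show 0 < p by omega) hpq j
        have h5 := mul_le_mul_of_nonneg_left (hθ j le_rfl) (show (0 : ℝ) ≤ p + 1 by positivity)
        have h6 := mul_le_mul_of_nonneg_right
          (show (dn p q j : ℝ) ≤ (p + 1) * (q : ℝ) ^ j by linarith) hld
        rw [hc₁]
        linarith
      have h4 := mul_le_mul h2 h3 (by positivity) (by positivity)
      have h5 : Real.log N ≤ (q : ℝ) ^ j * A := by linarith [hTm.1, hTm.2]
      have h6 := mul_le_mul_of_nonneg_left (add_le_add h4 h5) (Nat.cast_nonneg (α := ℝ) G.index)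
      have h7 := mul_le_mul_of_nonneg_right hY₀ (show 0 ≤ (q : ℝ) ^ j * A by linarith)
      linarith [hTm.1, hTm.2])
  let e := (Fintype.equivFin (PK p q j m T)).symm
  refine ⟨N, Fintype.card (PK p q j m T'), fun l => S.R (e l), fun l => g * g₀ (e l), hN2,
    le_trans (by omega) hpar, Grid_reindex e hGrid, fun l => G.mul_mem hg (hg₀ _),
    fun l l' hl => e.injective (hinj ?_), hKN, EQ_reindex e hEQ⟩
  simp only [AlgEquiv.mul_apply, EmbeddingLike.apply_eq_iff_eq] at hl
  simp only [emb_apply, hl]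

end Pool.Agent.MP_09973c_nt.H74
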