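import Pool.Agent.MP_09973c_nt.H58.SpecA

/-!
Zero estimate for the monomials in a chain with a tail.
-/

set_option autoImplicit false

namespace Pool.Agent.MP_09973c_nt.H74

open Polynomial Finset Pool.Agent.MP_09973c_nt.H31 Pool.Agent.MP_09973c_nt.H58

theorem tr_eq (p q t k : ℕ) : tr p q t k = if k < t then p else q := by
  induction t generalizing k with
  | zero => simp [tr]
  | succ t ih => cases k <;> simp [tr, ih]

theorem tα_eq (ξ : ℂ) (t k : ℕ) : tα ξ t k = if k + 1 = t then ξ else 1 := by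
  induction t generalizing k with
  | zero => simp [tα]
  | succ t ih => cases k <;> simp [tα, ih, top, eq_comm]

theorem tβ_eq (c : ℂ) (t k : ℕ) : tβ c t k = if k < t then -c else c := by
  induction t generalizing k with
  | zero => simp [tβ]
  | succ t ih => cases k <;> simp [tβ, ih]

theorem pv_top {A : Type} (j m : ℕ) (u t : ℕ → A) : pv j u t (m + j) = u m := by
  simp [pv]

theorem isPath_pv {p q j m : ℕ} {a ξ : ℂ} {u t : ℕ → ℂ} (hu : Bwd p q a m u)
    (h0 : t 0 = ξ * u 0) (ht : Bwd p q a j t) :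
    IsPath (tr p q j) (tr q p j) (tα (ξ ^ q) j) (tβ a j) (m + j) (pv j u t) := by
  intro k hk
  simp only [tr_eq, tα_eq, tβ_eq, pv]
  by_cases h1 : k < j
  · have h2 := ht (j - (k + 1)) (by omega)
    rw [show j - (k + 1) + 1 = j - k by omega] at h2
    by_cases h3 : k + 1 = j
    · rw [show j - (k + 1) = 0 by omega, h0, mul_pow] at h2
      simp only [if_pos h1, if_pos h3, if_neg (show ¬ k + 1 < j by omega),
        show k + 1 - j = 0 by omega]
      linear_combination h2
    · simp only [if_pos h1, if_neg h3, if_pos (show k + 1 < j by omega)]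
      linear_combination h2
  · have h2 := hu (k - j) (by omega)
    rw [show k - j + 1 = k + 1 - j by omega] at h2
    simp only [if_neg h1, if_neg (show ¬ k + 1 < j by omega), if_neg (show ¬ k + 1 = j by omega)]
    linear_combination -h2

theorem natDegree_det_le {ι : Type} [Fintype ι] [DecidableEq ι] (M : Matrix ι ι ℂ[X]) {T : ℕ}
    (h : ∀ i j, (M i j).natDegree ≤ T) : M.det.natDegree ≤ Fintype.card ι * T := by
  rw [Matrix.det_apply']
  refine natDegree_sum_le_of_forall_le _ _ fun σ _ => natDegree_mul_le.trans ?_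
  rw [natDegree_intCast, zero_add]
  refine (natDegree_prod_le _ _).trans ?_
  simpa using sum_le_card_nsmul univ (fun i => (M (σ i) i).natDegree) T fun i _ => h _ _

section NF

variable {r s : ℕ → ℕ} {α β : ℕ → ℂ} {n Q : ℕ}

theorem wt_le (hr : ∀ k, r k ≤ Q) (hs : ∀ k, s k ≤ Q) {k : ℕ} (hk : k ≤ n) :
    wt r s n k ≤ Q ^ n := by
  have h1 := prod_le_pow_card (range k) r Q fun i _ => hr i
  have h2 := prod_le_pow_card (Ico k n) s Q fun i _ => hs i
  rw [card_range] at h1
  rw [Nat.card_Ico] at h2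
  refine (Nat.mul_le_mul h1 h2).trans_eq ?_
  rw [← pow_add]; congr 1; omega

theorem lin_le (hr : ∀ k, r k ≤ Q) (hs : ∀ k, s k ≤ Q) (l : Idx r n) :
    lin n (wt r s n) (expo l) ≤ n * (Q * Q ^ n) := by
  refine (lin_expo_le l _).trans ?_
  simpa using sum_le_card_nsmul (range n) (fun k => (r k - 1) * wt r s n k) (Q * Q ^ n)
    fun k hk => Nat.mul_le_mul ((Nat.sub_le _ _).trans (hr k)) (wt_le hr hs (mem_range.1 hk).le)

theorem NF_mul (hr0 : ∀ k, 0 < r k) (hr : ∀ k, r k ≤ Q) (hs : ∀ k, s k ≤ Q) {T : ℕ}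
    (c : Idx r n → ℂ[X]) (hc : ∀ l, (c l).natDegree ≤ T) (l' : Idx r n) :
    NF r s α β n (T + 2 * (n * (Q * Q ^ n)))
      ((∑ l, aeval (MvPolynomial.X n) (c l) * bas l MvPolynomial.X) * bas l' MvPolynomial.X) := by
  rw [sum_mul]
  refine NF.sum _ fun l _ => ?_
  rw [aeval_eq_sum_range, sum_mul, sum_mul]
  refine NF.sum _ fun i hi => ?_
  have hi' : i ≤ T := (Nat.lt_succ_iff.1 (mem_range.1 hi)).trans (hc l)
  have hT := NF_monE (s := s) (α := α) (β := β) (n := n) hr0 (T + 2 * (n * (Q * Q ^ n)))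
    (Pi.single n i + expo l + expo l') (by
      rw [lin_add, lin_add, lin_single le_rfl, wt_self]
      have h1 := lin_le (s := s) hr hs l
      have h2 := lin_le (s := s) hr hs l'
      have h3 : 0 < lam r n := prod_pos fun j _ => hr0 j
      have h4 := Nat.mul_le_mul_right (lam r n) hi'
      have h5 := Nat.le_mul_of_pos_right (2 * (n * (Q * Q ^ n)) + 1) h3
      calc _ < T * lam r n + (2 * (n * (Q * Q ^ n)) + 1) := by omega
        _ ≤ _ := by rw [add_assoc, add_mul]; omega)
  refine (hT.smul ((c l).coeff i)).congr fun A _ _ v _ => ?_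
  simp only [map_mul, map_pow, map_smul, MvPolynomial.aeval_X,
    aeval_bas, aeval_monE, monE_add, monE_single le_rfl, monE_expo, Algebra.smul_def]
  ring

/-- The norm of a nonzero normal form, with a degree bound. -/
theorem exists_norm_deg (hr0 : ∀ k, 0 < r k) (hr : ∀ k, r k ≤ Q) (hs : ∀ k, s k ≤ Q) {B : Type}
    [CommRing B] [IsDomain B] [Algebra ℂ B] (g : ℕ → B) (hg : IsPathA r s α β n g)
    (hind : Indep r n g) {T : ℕ} (c : Idx r n → ℂ[X]) (hc : c ≠ 0)
    (hT : ∀ l, (c l).natDegree ≤ T) :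
    ∃ D : ℂ[X], D ≠ 0 ∧ D.natDegree ≤ Q ^ n * (T + 2 * (n * (Q * Q ^ n))) ∧ ∀ v : ℕ → ℂ,
      IsPath r s α β n v → ∑ l, aeval (v n) (c l) * bas l v = 0 → aeval (v n) D = 0 := by
  classical
  choose M hdeg hM using fun l' => NF_mul (s := s) (α := α) (β := β) hr0 hr hs c hT l'
  have hM' : ∀ (A : Type) [CommRing A] [Algebra ℂ A] (v : ℕ → A), IsPathA r s α β n v →
      ∀ l', (∑ l, aeval (v n) (c l) * bas l v) * bas l' v
        = ∑ l, aeval (v n) (M l' l) * bas l v := by
    intro A _ _ v hv l'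
    rw [← hM l' A v hv]
    simp only [map_mul, map_sum, aeval_bas]
    congr 1
    refine sum_congr rfl fun l _ => ?_
    rw [← aeval_algHom_apply, MvPolynomial.aeval_X]
  refine ⟨(Matrix.of M).det, fun h0 => ?_, ?_, fun v hv h0 => ?_⟩
  · obtain ⟨w, hw, hwM⟩ := Matrix.exists_vecMul_eq_zero_iff.2 h0
    have h1 : (∑ l, aeval (g n) (c l) * bas l g) * (∑ l', aeval (g n) (w l') * bas l' g) = 0 := by
      rw [mul_sum]
      simp_rw [mul_left_comm _ (aeval (g n) (w _)), hM' B g hg, mul_sum]
      rw [sum_comm]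
      refine sum_eq_zero fun l _ => ?_
      have := congrFun hwM l
      simp only [Matrix.vecMul, dotProduct, Matrix.of_apply, Pi.zero_apply] at this
      have h2 := congrArg (aeval (g n)) this
      rw [map_sum, map_zero] at h2
      simp_rw [← mul_assoc, ← sum_mul, ← map_mul]
      rw [h2, zero_mul]
    rcases mul_eq_zero.1 h1 with h | h
    · exact hc (hind c h)
    · exact hw (hind w h)
  · refine (natDegree_det_le _ hdeg).trans (Nat.mul_le_mul_right _ ?_)
    rw [card_Idx]
    simpa [lam] using prod_le_pow_card (range n) r Q fun i _ => hr i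
  · have h1 : ((aeval (v n) : ℂ[X] →ₐ[ℂ] ℂ).toRingHom.mapMatrix (Matrix.of M)).det = 0 := by
      refine Matrix.exists_mulVec_eq_zero_iff.1 ⟨fun l => bas l v, fun h => ?_, ?_⟩
      · have := congrFun h (fun k => ⟨0, hr0 k⟩)
        simp [bas] at this
      · funext l'
        have := hM' ℂ v hv l'
        rw [h0, zero_mul] at this
        simpa [Matrix.mulVec, dotProduct] using this.symm
    rw [← RingHom.map_det] at h1
    exact h1

end NF

theorem back_card {p q : ℕ} (hq : 0 < q) (a : ℂ) (m : ℕ) (Z : Finset ℂ) :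
    ∃ Z' : Finset ℂ, Z'.card ≤ q ^ m * Z.card ∧
      ∀ u : ℕ → ℂ, Bwd p q a m u → u m ∈ Z → u 0 ∈ Z' := by
  classical
  induction m generalizing Z with
  | zero => exact ⟨Z, by simp, fun u _ h => h⟩
  | succ m ih =>
    obtain ⟨Z', h1, h2⟩ := ih (Z.biUnion fun w => (nthRoots q (w ^ p + a)).toFinset)
    refine ⟨Z', h1.trans ?_, fun u hu h => h2 u (fun k hk => hu k (by omega)) ?_⟩
    · rw [pow_succ, mul_assoc, mul_comm q]
      exact Nat.mul_le_mul_left _ (card_biUnion_le_card_mul _ _ _ fun w _ =>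
        (Multiset.toFinset_card_le _).trans (card_nthRoots _ _))
    · exact mem_biUnion.2 ⟨_, h, by
        rw [Multiset.mem_toFinset, mem_nthRoots hq, hu m (by omega)]⟩

theorem two_mul_lt_pow {q : ℕ} (hq : 3 ≤ q) (n : ℕ) : 2 * n + 1 ≤ q ^ n := by
  induction n with
  | zero => simp
  | succ n ih => rw [pow_succ]; nlinarith

theorem zb : ZBStmt := by
  intro p q a hp hpq h ha j m T ξ hξ hξ1 c hc
  classical
  have hr0 := tr_pos (show 0 < p by omega) (show 0 < q by omega) j
  have hr : ∀ k, tr p q j k ≤ q := fun k => by rw [tr_eq]; split_ifs <;> omega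
  have hs : ∀ k, tr q p j k ≤ q := fun k => by rw [tr_eq]; split_ifs <;> omega
  obtain ⟨g, hg, hgn⟩ := exists_path (m + j) tt (tr p q j) (tr q p j)
    (fun k => algebraMap ℂ FF (tα (ξ ^ q) j k)) (fun k => algebraMap ℂ FF (tβ a j k)) hr0
  have hind := tail_uind hp hpq h (ξ := ξ ^ q) (by rw [← pow_mul, mul_comm, pow_mul, hξ, one_pow])
    (fun h1 => hξ1 (eq_one_of_coprime h hξ h1)) ha m j FF g hg (hgn ▸ tt_transcendental)
  let c' : Idx (tr p q j) (m + j) → ℂ[X] := fun l => ∑ i : Fin T, monomial i (c (i, l))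
  have hc' : c' ≠ 0 := fun h0 => hc (funext fun k => by
    have := congrArg (fun f : ℂ[X] => f.coeff k.1) (congrFun h0 k.2)
    simpa [c', finsetSum_coeff, coeff_monomial, Fin.val_inj] using this)
  obtain ⟨D, hD, hdeg, hz⟩ := exists_norm_deg hr0 hr hs g hg hind (T := T) c' hc' fun l =>
    natDegree_sum_le_of_forall_le _ _ fun i _ => (natDegree_monomial_le _).trans i.2.le
  obtain ⟨Z, hZ, hZ'⟩ := back_card (p := p) (show 0 < q by omega) a m D.roots.toFinset
  refine ⟨Z, hZ.trans ?_, fun u t hu h0 ht hsum => hZ' u hu ?_⟩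
  · have h1 := ((Multiset.toFinset_card_le _).trans (card_roots' D)).trans hdeg
    have h2 := two_mul_lt_pow (show 3 ≤ q by omega) (m + j)
    have h3 : q ^ m ≤ q ^ (m + j) := Nat.pow_le_pow_right (by omega) (by omega)
    generalize m + j = n at h1 h2 h3 ⊢
    have hq : 0 < q := by omega
    have h5 : T + 2 * (n * (q * q ^ n)) ≤ (T + 1) * (q ^ n * (q * q ^ n)) := by
      have h6 := Nat.mul_le_mul_right (q * q ^ n) h2
      have h7 : 0 < q ^ n * (q * q ^ n) := by positivity
      have h8 := Nat.le_mul_of_pos_right T h7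
      rw [add_mul T, one_mul]
      rw [add_mul, mul_assoc] at h6
      omega
    calc q ^ m * D.roots.toFinset.card ≤ q ^ n * (q ^ n * ((T + 1) * (q ^ n * (q * q ^ n)))) :=
          Nat.mul_le_mul h3 (h1.trans (Nat.mul_le_mul_left _ h5))
      _ = (T + 1) * q ^ (4 * n + 1) := by ring
      _ ≤ _ := Nat.mul_le_mul_left _ (Nat.pow_le_pow_right (by omega) (by omega))
  · have := hz (pv j u t) (isPath_pv hu h0 ht) (by
      rw [← hsum, Fintype.sum_prod_type_right]
      refine sum_congr rfl fun l _ => ?_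
      simp only [c', map_sum, aeval_monomial, sum_mul, pv_top, mono]
      exact sum_congr rfl fun i _ => by simp [mul_assoc])
    rw [pv_top] at this
    rw [Multiset.mem_toFinset, mem_roots hD]
    simpa [coe_aeval_eq_eval] using this

end Pool.Agent.MP_09973c_nt.H74
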